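import Pool.Agent.Helper33.PS.Local

/-!
# Exponential bound and Rellich compactness on closed surfaces
-/

open MeasureTheory Set Manifold Bundle Filter Topology
open scoped ContDiff ENNReal

set_option linter.unusedSectionVars false

namespace Pool.Agent.Helper33.PS
open Pool.Agent.Helper41.PS

variable {M : Type*} [TopologicalSpace M] [T2Space M] [CompactSpace M] [ChartedSpace E2 M]
  [IsManifold (𝓡 2) ∞ M] [RiemannianBundle (fun x : M => TangentSpace (𝓡 2) x)]
  [IsContMDiffRiemannianBundle (𝓡 2) ∞ E2 (fun x : M => TangentSpace (𝓡 2) x)]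
  [MeasurableSpace M] [BorelSpace M] (vol : Measure M) [IsProbabilityMeasure vol]
  (hvol : IsRiemannianVolume vol)

include hvol in
theorem exists_exp_bound (p E : ℝ) : ∃ C : ℝ, 0 < C ∧ ∀ u : M → ℝ, ContMDiff (𝓡 2) 𝓘(ℝ, ℝ) ∞ u →
    (∫ x, u x ^ 2 ∂vol) + (∫ x, ‖Helper41.PS.grad u x‖ ^ 2 ∂vol) ≤ E →
    ∫ x, Real.exp (p * |u x|) ∂vol ≤ C := by
  obtain ⟨P, t, ht⟩ := exists_finite_cover hvol
  have hloc : ∀ x : M, ∃ C : ℝ, 0 < C ∧ ∀ u : M → ℝ, ContMDiff (𝓡 2) 𝓘(ℝ, ℝ) ∞ u →
      (∫ x, u x ^ 2 ∂vol) + (∫ x, ‖Helper41.PS.grad u x‖ ^ 2 ∂vol) ≤ E →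
      ∫ z in (P x).P '' (Metric.ball 0 ((P x).δ / 4)), Real.exp (p * |u z|) ∂vol ≤ C := by
    intro x
    have hδ := (P x).δ_pos
    obtain ⟨K, hK, hK1, hK2⟩ := exists_local_bounds (P x)
    obtain ⟨C, hC, hexp⟩ := flat_exp p (K * E) ((P x).δ / 2) (by linarith)
    refine ⟨K * C, by positivity, fun u hu hE => ?_⟩
    have hn1 : 0 ≤ ∫ x, u x ^ 2 ∂vol := by positivity
    have hn2 : 0 ≤ ∫ x, ‖Helper41.PS.grad u x‖ ^ 2 ∂vol := by positivity
    have huc : Continuous u := hu.continuous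
    have h1 := hexp (loc (P x) u) (loc_contDiff (P x) hu)
      ((hK1 u hu).1.trans (mul_le_mul_of_nonneg_left (by linarith) hK.le))
      ((hK1 u hu).2.trans (mul_le_mul_of_nonneg_left (by linarith) hK.le))
    have h2 := hK2 (fun z => Real.exp (p * |u z|)) (by fun_prop) (fun z => (Real.exp_pos _).le)
    refine h2.trans (mul_le_mul_of_nonneg_left (le_trans ?_ h1) hK.le)
    have hlc := (loc_contDiff (P x) hu).continuous
    calc ∫ y in Metric.ball (0 : E2) ((P x).δ / 4), Real.exp (p * |u ((P x).P y)|)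
        = ∫ y in Metric.ball (0 : E2) ((P x).δ / 4), Real.exp (p * |loc (P x) u y|) := by
          apply setIntegral_congr_fun measurableSet_ball
          intro y hy
          simp only []
          rw [loc_eq (P x) u (Metric.ball_subset_ball (by linarith) hy)]
      _ ≤ _ := by
          apply setIntegral_mono_set (intOn_ball (by fun_prop) _ _)
          · exact Eventually.of_forall (fun x => (Real.exp_pos _).le)
          · exact (Metric.ball_subset_ball (by linarith)).eventuallyLE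
  choose C hC hCu using hloc
  refine ⟨∑ x ∈ t, C x + 1, ?_, fun u hu hE => ?_⟩
  · have : 0 ≤ ∑ x ∈ t, C x := Finset.sum_nonneg (fun x _ => (hC x).le)
    linarith
  · have huc : Continuous u := hu.continuous
    have h3 := integral_le_sum_cover (vol := vol) t
      (fun x => (P x).P '' (Metric.ball 0 ((P x).δ / 4)))
      (fun x _ => ((P x).open_P _ (Metric.ball_subset_ball (by have := (P x).δ_pos; linarith))
        Metric.isOpen_ball).measurableSet) ht
      (F := fun z => Real.exp (p * |u z|)) (by fun_prop) (fun z => (Real.exp_pos _).le)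
    have h4 := Finset.sum_le_sum (fun x (_ : x ∈ t) => hCu x u hu hE)
    linarith

lemma avg_sub {f g : E2 → ℝ} (hf : Continuous f) (hg : Continuous g) (z : E2) (s : ℝ) :
    avg (fun x => f x - g x) z s = avg f z s - avg g z s := by
  unfold avg
  rw [integral_sub (intOn_ball hf _ _) (intOn_ball hg _ _), sub_div]

lemma abs_avg_le {f : E2 → ℝ} (hf : Continuous f) {z : E2} {s R : ℝ} (hs : 0 < s)
    (hsub : Metric.ball z s ⊆ Metric.ball 0 R) :
    |avg f z s| ≤ (∫ y in Metric.ball (0 : E2) R, |f y|) / (Real.pi * s ^ 2) := by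
  have hpi := Real.pi_pos
  unfold avg
  rw [abs_div, abs_of_pos (show 0 < Real.pi * s ^ 2 by positivity)]
  apply div_le_div_of_nonneg_right _ (by positivity)
  refine (abs_integral_le_integral_abs).trans ?_
  apply setIntegral_mono_set (intOn_ball (by fun_prop) _ _)
  · exact Eventually.of_forall (fun x => abs_nonneg _)
  · exact hsub.eventuallyLE

lemma integral_norm_le {f : E2 → ℝ} (hf : Continuous f) (R : ℝ) (hR : 0 ≤ R) {A : ℝ}
    (h : ∫ y in Metric.ball (0 : E2) R, f y ^ 2 ≤ A) :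
    ∫ y in Metric.ball (0 : E2) R, |f y| ≤ Real.pi * R ^ 2 + A := by
  calc ∫ y in Metric.ball (0 : E2) R, |f y| ≤ ∫ y in Metric.ball (0 : E2) R, (1 + f y ^ 2) := by
        apply setIntegral_mono_on
        · exact intOn_ball (by fun_prop) _ _
        · exact intOn_ball (by fun_prop) _ _
        · exact measurableSet_ball
        · intro y _
          rw [← sq_abs]
          nlinarith [sq_nonneg (|f y| - 1), abs_nonneg (f y)]
    _ = Real.pi * R ^ 2 + ∫ y in Metric.ball (0 : E2) R, f y ^ 2 := by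
        rw [integral_add (intOn_ball (by fun_prop) _ _) (intOn_ball (by fun_prop) _ _),
          setIntegral_const, smul_eq_mul, mul_one, volume_ball_real _ hR]
    _ ≤ _ := by linarith

include hvol in
/-- Compactness in `L¹`. -/
theorem rellich_l1 (u : ℕ → M → ℝ) (hu : ∀ n, ContMDiff (𝓡 2) 𝓘(ℝ, ℝ) ∞ (u n)) (E : ℝ)
    (hE : ∀ n, (∫ x, u n x ^ 2 ∂vol) + (∫ x, ‖Helper41.PS.grad (u n) x‖ ^ 2 ∂vol) ≤ E) :
    ∃ φ : ℕ → ℕ, StrictMono φ ∧ ∀ ε > 0, ∃ N, ∀ m ≥ N, ∀ n ≥ N,
      ∫ x, |u (φ m) x - u (φ n) x| ∂vol ≤ ε := by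
  classical
  have hpi := Real.pi_pos
  obtain ⟨P, t, ht⟩ := exists_finite_cover hvol
  have hδ : ∀ x, 0 < (P x).δ := fun x => (P x).δ_pos
  choose K hK hK1 hK2 using fun x : M => exists_local_bounds (P x)
  have hgrid : ∀ (x : M) (k : ℕ), ∃ s : ℝ, 0 < s ∧ ∃ G : Finset (Fin 2 → ℤ),
      (∀ z ∈ G, Metric.ball (gridPt s z) s ⊆ Metric.ball 0 ((P x).δ / 2)) ∧
      ∀ f : E2 → ℝ, ContDiff ℝ 1 f → ∫ y in Metric.ball (0 : E2) ((P x).δ / 4), |f y|
        ≤ (1 / ((k : ℝ) + 1)) * (∫ y in Metric.ball (0 : E2) ((P x).δ / 2), ‖fderiv ℝ f y‖)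
          + Real.pi * s ^ 2 * ∑ z ∈ G, |avg f (gridPt s z) s| := fun x k =>
    grid_l1 (by have := hδ x; linarith) (by positivity)
  choose s hs G hG hGf using hgrid
  have hE0 : ∀ n, (∫ x, u n x ^ 2 ∂vol) ≤ E ∧ (∫ x, ‖Helper41.PS.grad (u n) x‖ ^ 2 ∂vol) ≤ E := by
    intro n
    have hn1 : 0 ≤ ∫ x, u n x ^ 2 ∂vol := by positivity
    have hn2 : 0 ≤ ∫ x, ‖Helper41.PS.grad (u n) x‖ ^ 2 ∂vol := by positivity
    have := hE n
    constructor <;> linarith
  have hlc : ∀ x n, ContDiff ℝ 1 (loc (P x) (u n)) := fun x n => loc_contDiff (P x) (hu n)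
  have hL1 : ∀ x n, ∫ y in Metric.ball (0 : E2) ((P x).δ / 2), |loc (P x) (u n) y|
      ≤ Real.pi * ((P x).δ / 2) ^ 2 + K x * E := by
    intro x n
    apply integral_norm_le (hlc x n).continuous _ (by have := hδ x; linarith)
    exact (hK1 x (u n) (hu n)).1.trans (mul_le_mul_of_nonneg_left (hE0 n).1 (hK x).le)
  have hG1 : ∀ x n, ∫ y in Metric.ball (0 : E2) ((P x).δ / 2), ‖fderiv ℝ (loc (P x) (u n)) y‖
      ≤ Real.pi * ((P x).δ / 2) ^ 2 + K x * E := by
    intro x n
    have hdc : Continuous (fun y => fderiv ℝ (loc (P x) (u n)) y) :=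
      (hlc x n).continuous_fderiv (by simp)
    have := integral_norm_le (f := fun y => ‖fderiv ℝ (loc (P x) (u n)) y‖) (by fun_prop)
      ((P x).δ / 2) (by have := hδ x; linarith)
      ((hK1 x (u n) (hu n)).2.trans (mul_le_mul_of_nonneg_left (hE0 n).2 (hK x).le))
    simpa using this
  -- the family of all averages
  let ι := {x // x ∈ t} × ℕ × (Fin 2 → ℤ)
  let a : ℕ → ι → ℝ := fun n i => if i.2.2 ∈ G i.1.1 i.2.1 then
    avg (loc (P i.1.1) (u n)) (gridPt (s i.1.1 i.2.1) i.2.2) (s i.1.1 i.2.1) else 0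
  let A : ι → ℝ := fun i => (Real.pi * ((P i.1.1).δ / 2) ^ 2 + K i.1.1 * E) /
    (Real.pi * s i.1.1 i.2.1 ^ 2)
  have hEn : 0 ≤ E := by
    have h1 := (hE0 0).1
    have hn1 : 0 ≤ ∫ x, u 0 x ^ 2 ∂vol := by positivity
    linarith
  have ha : ∀ n, a n ∈ Set.pi univ (fun i => Icc (-A i) (A i)) := by
    intro n i _
    rw [mem_Icc, ← abs_le]
    have hA0 : 0 ≤ A i := by
      have := (hK i.1.1).le
      have := hs i.1.1 i.2.1
      positivity
    simp only [a]
    split_ifs with hi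
    · refine (abs_avg_le (hlc _ _).continuous (hs _ _) (hG _ _ _ hi)).trans ?_
      apply div_le_div_of_nonneg_right (hL1 _ _)
      have := hs i.1.1 i.2.1
      positivity
    · rw [abs_zero]
      exact hA0
  obtain ⟨b, -, φ, hφ, hb⟩ := (isCompact_univ_pi (fun i => isCompact_Icc)).tendsto_subseq ha
  refine ⟨φ, hφ, fun ε hε => ?_⟩
  -- choice of the grid
  set T : ℝ := ∑ x ∈ t, K x * (2 * (Real.pi * ((P x).δ / 2) ^ 2 + K x * E)) with hT
  have hT0 : 0 ≤ T := Finset.sum_nonneg (fun x _ => by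
    have := (hK x).le
    positivity)
  obtain ⟨k, hk⟩ := exists_nat_gt (2 * T / ε)
  have hk1 : T * (1 / ((k : ℝ) + 1)) ≤ ε / 2 := by
    rw [mul_one_div, div_le_iff₀ (by positivity)]
    rw [div_lt_iff₀ hε] at hk
    nlinarith
  set W : ℝ := ∑ x ∈ t, ∑ z ∈ G x k, K x * (Real.pi * s x k ^ 2) with hW
  have hW0 : 0 ≤ W := Finset.sum_nonneg (fun x _ => Finset.sum_nonneg (fun z _ => by
    have := (hK x).le
    positivity))
  set η : ℝ := ε / 2 / (W + 1) with hη
  have hη0 : 0 < η := by positivity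
  have hev : ∀ᶠ q : ℕ × ℕ in atTop, ∀ x : {x // x ∈ t}, ∀ z ∈ G x.1 k,
      |avg (loc (P x.1) (u (φ q.1))) (gridPt (s x.1 k) z) (s x.1 k)
        - avg (loc (P x.1) (u (φ q.2))) (gridPt (s x.1 k) z) (s x.1 k)| ≤ η := by
    rw [eventually_all]
    intro x
    rw [Finset.eventually_all (G x.1 k)]
    intro z hz
    have h5 : Tendsto (fun n => a (φ n) (x, k, z)) atTop (𝓝 (b (x, k, z))) :=
      (tendsto_pi_nhds.mp hb) (x, k, z)
    have h6 := h5.cauchySeq
    rw [Metric.cauchySeq_iff] at h6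
    obtain ⟨N, hN⟩ := h6 η hη0
    rw [← prod_atTop_atTop_eq]
    filter_upwards [prod_mem_prod (Ici_mem_atTop N) (Ici_mem_atTop N)] with q hq
    have h7 := hN q.1 hq.1 q.2 hq.2
    rw [Real.dist_eq] at h7
    simp only [a, if_pos hz] at h7
    exact h7.le
  rw [eventually_atTop_prod_self] at hev
  obtain ⟨N, hN⟩ := hev
  refine ⟨N, fun m hm n hn => ?_⟩
  have hN' := hN m n hm hn
  have hdiffc : ∀ x, ContDiff ℝ 1 (fun y => loc (P x) (u (φ m)) y - loc (P x) (u (φ n)) y) :=
    fun x => (hlc x _).sub (hlc x _)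
  have huc : ∀ n, Continuous (u n) := fun n => (hu n).continuous
  have h8 := integral_le_sum_cover (vol := vol) t
      (fun x => (P x).P '' (Metric.ball 0 ((P x).δ / 4)))
      (fun x _ => ((P x).open_P _ (Metric.ball_subset_ball (by have := (P x).δ_pos; linarith))
        Metric.isOpen_ball).measurableSet) ht
      (F := fun z => |u (φ m) z - u (φ n) z|) (by have := huc (φ m); have := huc (φ n); fun_prop)
      (fun z => abs_nonneg _)
  have h9 : ∀ x ∈ t, ∫ z in (P x).P '' (Metric.ball 0 ((P x).δ / 4)), |u (φ m) z - u (φ n) z| ∂vol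
      ≤ K x * (2 * (Real.pi * ((P x).δ / 2) ^ 2 + K x * E)) * (1 / ((k : ℝ) + 1))
        + (∑ z ∈ G x k, K x * (Real.pi * s x k ^ 2)) * η := by
    intro x hx
    have h10 := hK2 x (fun z => |u (φ m) z - u (φ n) z|)
      (by have := huc (φ m); have := huc (φ n); fun_prop) (fun z => abs_nonneg _)
    have h11 : ∫ y in Metric.ball (0 : E2) ((P x).δ / 4), |u (φ m) ((P x).P y) - u (φ n) ((P x).P y)|
        = ∫ y in Metric.ball (0 : E2) ((P x).δ / 4),
          |loc (P x) (u (φ m)) y - loc (P x) (u (φ n)) y| := by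
      apply setIntegral_congr_fun measurableSet_ball
      intro y hy
      have hy2 : y ∈ Metric.ball (0 : E2) ((P x).δ / 2) :=
        Metric.ball_subset_ball (by have := hδ x; linarith) hy
      simp only []
      rw [loc_eq (P x) _ hy2, loc_eq (P x) _ hy2]
    have h12 := hGf x k _ (hdiffc x)
    have hd1 : Continuous (fun y => fderiv ℝ (loc (P x) (u (φ m))) y) :=
      (hlc x _).continuous_fderiv (by simp)
    have hd2 : Continuous (fun y => fderiv ℝ (loc (P x) (u (φ n))) y) :=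
      (hlc x _).continuous_fderiv (by simp)
    have hd3 : Continuous (fun y => fderiv ℝ
        (fun y => loc (P x) (u (φ m)) y - loc (P x) (u (φ n)) y) y) :=
      (hdiffc x).continuous_fderiv (by simp)
    have h13 : ∫ y in Metric.ball (0 : E2) ((P x).δ / 2),
        ‖fderiv ℝ (fun y => loc (P x) (u (φ m)) y - loc (P x) (u (φ n)) y) y‖
        ≤ 2 * (Real.pi * ((P x).δ / 2) ^ 2 + K x * E) := by
      calc _ ≤ ∫ y in Metric.ball (0 : E2) ((P x).δ / 2),
            (‖fderiv ℝ (loc (P x) (u (φ m))) y‖ + ‖fderiv ℝ (loc (P x) (u (φ n))) y‖) := by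
            apply setIntegral_mono_on
            · exact intOn_ball (by fun_prop) _ _
            · exact intOn_ball (by fun_prop) _ _
            · exact measurableSet_ball
            · intro y _
              have e1 : DifferentiableAt ℝ (loc (P x) (u (φ m))) y :=
                (hlc x _).differentiable (by simp) y
              have e2 : DifferentiableAt ℝ (loc (P x) (u (φ n))) y :=
                (hlc x _).differentiable (by simp) y
              rw [fderiv_fun_sub e1 e2]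
              exact norm_sub_le _ _
        _ = _ := integral_add (intOn_ball (by fun_prop) _ _) (intOn_ball (by fun_prop) _ _)
        _ ≤ _ := by
            have := hG1 x (φ m)
            have := hG1 x (φ n)
            linarith
    have h14 : ∑ z ∈ G x k, |avg (fun y => loc (P x) (u (φ m)) y - loc (P x) (u (φ n)) y)
        (gridPt (s x k) z) (s x k)| ≤ ∑ z ∈ G x k, η := by
      apply Finset.sum_le_sum
      intro z hz
      rw [avg_sub (hlc x _).continuous (hlc x _).continuous]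
      exact hN' ⟨x, hx⟩ z hz
    rw [h11] at h10
    calc _ ≤ K x * ∫ y in Metric.ball (0 : E2) ((P x).δ / 4),
          |loc (P x) (u (φ m)) y - loc (P x) (u (φ n)) y| := h10
      _ ≤ K x * ((1 / ((k : ℝ) + 1)) * (2 * (Real.pi * ((P x).δ / 2) ^ 2 + K x * E))
          + Real.pi * s x k ^ 2 * ∑ z ∈ G x k, η) := by
          apply mul_le_mul_of_nonneg_left _ (hK x).le
          refine h12.trans ?_
          have g1 := mul_le_mul_of_nonneg_left h13 (show (0 : ℝ) ≤ 1 / ((k : ℝ) + 1) by positivity)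
          have g2 := mul_le_mul_of_nonneg_left h14 (show (0 : ℝ) ≤ Real.pi * s x k ^ 2 by positivity)
          linarith
      _ = _ := by
          rw [Finset.sum_const, Finset.sum_const, nsmul_eq_mul, nsmul_eq_mul]
          ring
  calc ∫ x, |u (φ m) x - u (φ n) x| ∂vol
      ≤ ∑ x ∈ t, ∫ z in (P x).P '' (Metric.ball 0 ((P x).δ / 4)), |u (φ m) z - u (φ n) z| ∂vol := h8
    _ ≤ ∑ x ∈ t, (K x * (2 * (Real.pi * ((P x).δ / 2) ^ 2 + K x * E)) * (1 / ((k : ℝ) + 1))
        + (∑ z ∈ G x k, K x * (Real.pi * s x k ^ 2)) * η) := Finset.sum_le_sum h9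
    _ = T * (1 / ((k : ℝ) + 1)) + W * η := by
        rw [Finset.sum_add_distrib, ← Finset.sum_mul, ← Finset.sum_mul]
    _ ≤ ε / 2 + ε / 2 := by
        apply add_le_add hk1
        rw [hη, mul_div_assoc', div_le_iff₀ (by positivity)]
        nlinarith
    _ = ε := by ring

lemma exp_cube (x : ℝ) (hx : 0 ≤ x) : x ^ 3 ≤ 6 * Real.exp x := by
  have := Real.pow_div_factorial_le_exp x hx 3
  have h1 : (Nat.factorial 3 : ℝ) = 6 := by norm_num [Nat.factorial]
  rw [h1, div_le_iff₀ (by norm_num)] at this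
  linarith

include hvol in
theorem rellich (u : ℕ → M → ℝ) (hu : ∀ n, ContMDiff (𝓡 2) 𝓘(ℝ, ℝ) ∞ (u n)) (E : ℝ)
    (hE : ∀ n, (∫ x, u n x ^ 2 ∂vol) + (∫ x, ‖Helper41.PS.grad (u n) x‖ ^ 2 ∂vol) ≤ E) :
    ∃ φ : ℕ → ℕ, StrictMono φ ∧ ∀ ε > 0, ∃ N, ∀ m ≥ N, ∀ n ≥ N,
      ∫ x, (u (φ m) x - u (φ n) x) ^ 2 ∂vol ≤ ε := by
  obtain ⟨φ, hφ, h1⟩ := rellich_l1 vol hvol u hu E hE
  obtain ⟨C, hC, hexp⟩ := exists_exp_bound vol hvol 2 E
  refine ⟨φ, hφ, fun ε hε => ?_⟩
  set A : ℝ := 12 * C / ε with hA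
  have hA0 : 0 < A := by positivity
  obtain ⟨N, hN⟩ := h1 (ε / (2 * A)) (by positivity)
  refine ⟨N, fun m hm n hn => ?_⟩
  have h2 := hN m hm n hn
  have huc : ∀ n, Continuous (u n) := fun n => (hu n).continuous
  have c1 := huc (φ m)
  have c2 := huc (φ n)
  have e1 := hexp (u (φ m)) (hu _) (hE _)
  have e2 := hexp (u (φ n)) (hu _) (hE _)
  have hpt : ∀ x, (u (φ m) x - u (φ n) x) ^ 2 ≤ A * |u (φ m) x - u (φ n) x|
      + 3 / A * (Real.exp (2 * |u (φ m) x|) + Real.exp (2 * |u (φ n) x|)) := by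
    intro x
    set f := |u (φ m) x - u (φ n) x| with hf
    have hf0 : 0 ≤ f := abs_nonneg _
    have h3 : (u (φ m) x - u (φ n) x) ^ 2 = f ^ 2 := by rw [hf, sq_abs]
    rw [h3]
    have h4 : f ^ 3 ≤ 3 * (Real.exp (2 * |u (φ m) x|) + Real.exp (2 * |u (φ n) x|)) := by
      have h5 := exp_cube f hf0
      have h6 : Real.exp f ≤ Real.exp (|u (φ m) x| + |u (φ n) x|) := by
        apply Real.exp_le_exp.mpr
        rw [hf]
        exact abs_sub _ _
      have h7 : 2 * Real.exp (|u (φ m) x| + |u (φ n) x|)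
          ≤ Real.exp (2 * |u (φ m) x|) + Real.exp (2 * |u (φ n) x|) := by
        rw [Real.exp_add, two_mul |u (φ m) x|, two_mul |u (φ n) x|, Real.exp_add, Real.exp_add]
        nlinarith [sq_nonneg (Real.exp |u (φ m) x| - Real.exp |u (φ n) x|)]
      linarith
    have h8 : f ^ 2 ≤ A * f + f ^ 3 / A := by
      have h9 : A * f + f ^ 3 / A - f ^ 2 = f * ((A - f) ^ 2 + A * f) / A := by
        field_simp
        ring
      have h10 : 0 ≤ f * ((A - f) ^ 2 + A * f) / A := by positivity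
      linarith
    have h11 : f ^ 3 / A ≤ 3 / A * (Real.exp (2 * |u (φ m) x|) + Real.exp (2 * |u (φ n) x|)) := by
      rw [div_mul_eq_mul_div]
      exact div_le_div_of_nonneg_right h4 hA0.le
    linarith
  calc ∫ x, (u (φ m) x - u (φ n) x) ^ 2 ∂vol
      ≤ ∫ x, (A * |u (φ m) x - u (φ n) x|
          + 3 / A * (Real.exp (2 * |u (φ m) x|) + Real.exp (2 * |u (φ n) x|))) ∂vol := by
        apply integral_mono
        · exact intM (by fun_prop)
        · exact intM (by fun_prop)
        · exact hpt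
    _ = A * (∫ x, |u (φ m) x - u (φ n) x| ∂vol) + 3 / A * ((∫ x, Real.exp (2 * |u (φ m) x|) ∂vol)
          + ∫ x, Real.exp (2 * |u (φ n) x|) ∂vol) := by
        rw [integral_add (intM (by fun_prop)) (intM (by fun_prop)), integral_const_mul,
          integral_const_mul, integral_add (intM (by fun_prop)) (intM (by fun_prop))]
    _ ≤ A * (ε / (2 * A)) + 3 / A * (C + C) := by
        apply add_le_add
        · exact mul_le_mul_of_nonneg_left h2 hA0.le
        · exact mul_le_mul_of_nonneg_left (add_le_add e1 e2) (by positivity)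
    _ = ε := by
        rw [hA]
        field_simp
        ring

end Pool.Agent.Helper33.PS
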