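import Pool.Agent.Helper41.PS.Levels

/-!
# Exponential bound for functions of bounded H1 norm on a disc
-/

open MeasureTheory Set Filter Topology Metric
open scoped ContDiff ENNReal NNReal

namespace Pool.Agent.Helper33.PS
open Pool.Agent.Helper41.PS

lemma sum_bandE_le {v : E2 → ℝ} (hv : ContDiff ℝ 1 v) (x0 : E2) (r k : ℝ) (N : ℕ) :
    ∑ j ∈ Finset.range N, bandE v x0 r (k + j) ≤ ∫ x in ball x0 r, ‖fderiv ℝ v x‖ ^ 2 := by
  have hdc : Continuous (fun z => fderiv ℝ v z) := hv.continuous_fderiv (by simp)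
  have hc : Continuous (fun x => ‖fderiv ℝ v x‖ ^ 2) := by fun_prop
  have h1 := setIntegral_sup_le_sum hv.continuous x0 r k hc N
  have h2 : ∑ j ∈ Finset.range N, bandE v x0 r (k + j)
      = ∫ x in {x ∈ ball x0 r | k ≤ v x ∧ v x < k + N}, ‖fderiv ℝ v x‖ ^ 2 := by
    rw [h1]
    rfl
  rw [h2]
  apply setIntegral_mono_set (intOn_ball hc x0 r)
  · exact Eventually.of_forall (fun x => by positivity)
  · exact Eventually.of_forall (fun x hx => hx.1)

lemma lev_chebyshev {v : E2 → ℝ} (hv : Continuous v) (x0 : E2) (r : ℝ) {k : ℝ} (hk : 0 ≤ k) :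
    k ^ 2 * lev v x0 r k ≤ ∫ x in ball x0 r, v x ^ 2 := by
  have hc : Continuous (fun x => v x ^ 2) := by fun_prop
  have hms := measSet_sup hv x0 r k
  have hfin : volume {x ∈ ball x0 r | k ≤ v x} ≠ ⊤ :=
    (lt_of_le_of_lt (measure_mono (fun x hx => hx.1)) (measure_ball_lt_top (x := x0) (r := r))).ne
  calc k ^ 2 * lev v x0 r k = ∫ x in {x ∈ ball x0 r | k ≤ v x}, k ^ 2 := by
        rw [setIntegral_const, smul_eq_mul, mul_comm]
        rfl
    _ ≤ ∫ x in {x ∈ ball x0 r | k ≤ v x}, v x ^ 2 := by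
        apply setIntegral_mono_on
        · exact (integrableOn_const (hs := hfin))
        · exact (intOn_ball hc x0 r).mono_set (fun x hx => hx.1)
        · exact hms
        · intro x hx
          exact pow_le_pow_left₀ hk hx.2 2
    _ ≤ _ := by
        apply setIntegral_mono_set (intOn_ball hc x0 r)
        · exact Eventually.of_forall (fun x => by positivity)
        · exact Eventually.of_forall (fun x hx => hx.1)

/-- Geometric decay of the level sets after a controlled number of exceptional levels. -/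
lemma exists_lev_decay (θ E R : ℝ) (hθ0 : 0 < θ) (hE : 0 ≤ E) (hR : 0 < R) :
    ∃ k : ℝ, ∀ v : E2 → ℝ, ContDiff ℝ 1 v → ∫ x in ball (0 : E2) R, v x ^ 2 ≤ E →
      ∫ x in ball (0 : E2) R, ‖fderiv ℝ v x‖ ^ 2 ≤ E →
      ∀ j : ℕ, lev v 0 R (k + j) ≤ θ ^ j * (Real.pi * R ^ 2) := by
  classical
  obtain ⟨C1, hC1, hstep⟩ := exists_level_step
  have hpi := Real.pi_pos
  set k0 : ℝ := 2 * E / (Real.pi * R ^ 2) + 1 with hk0
  have hk01 : 1 ≤ k0 := by
    rw [hk0]
    have : 0 ≤ 2 * E / (Real.pi * R ^ 2) := by positivity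
    linarith
  set m0 : ℕ := ⌈C1 * E / θ⌉₊ with hm0
  refine ⟨k0 + m0, fun v hv h2 h3 j => ?_⟩
  have hvc := hv.continuous
  have hcheb := lev_chebyshev hvc 0 R (zero_le_one.trans hk01)
  have hlev0 : lev v 0 R k0 ≤ Real.pi * R ^ 2 / 2 := by
    have h4 : k0 * lev v 0 R k0 ≤ E := by
      refine le_trans ?_ (hcheb.trans h2)
      apply mul_le_mul_of_nonneg_right _ (lev_nonneg _ _ _ _)
      nlinarith
    have h5 : 2 * E ≤ (k0 - 1) * (Real.pi * R ^ 2) := by
      rw [hk0]
      apply le_of_eq
      field_simp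
      ring
    have h6 : (k0 - 1) * (Real.pi * R ^ 2) ≤ k0 * (Real.pi * R ^ 2) := by
      apply mul_le_mul_of_nonneg_right _ (by positivity)
      linarith
    have h7 : k0 * lev v 0 R k0 ≤ k0 * (Real.pi * R ^ 2 / 2) := by linarith
    exact le_of_mul_le_mul_left h7 (by linarith)
  set bad : ℕ → Finset ℕ := fun j => (Finset.range j).filter
    (fun i => θ < C1 * bandE v 0 R (k0 + i)) with hbad
  have hind : ∀ j : ℕ, lev v 0 R (k0 + j) * θ ^ (bad j).card ≤ θ ^ j * (Real.pi * R ^ 2) := by
    intro j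
    induction j with
    | zero =>
      simp only [hbad, Finset.range_zero, Finset.filter_empty, Finset.card_empty, pow_zero, mul_one,
        one_mul]
      exact lev_le v 0 hR _
    | succ j ih =>
      have hlj : lev v 0 R (k0 + j) ≤ Real.pi * R ^ 2 / 2 :=
        (lev_anti 0 R (by have : (0 : ℝ) ≤ j := Nat.cast_nonneg j
                          linarith)).trans hlev0
      have hs := hstep v hv 0 R hR (k0 + j) hlj
      have hanti : lev v 0 R (k0 + j + 1) ≤ lev v 0 R (k0 + j) := lev_anti 0 R (by linarith)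
      have hnn := lev_nonneg v 0 R (k0 + j + 1)
      have hnn' := lev_nonneg v 0 R (k0 + j)
      have hcast : k0 + ((j + 1 : ℕ) : ℝ) = k0 + j + 1 := by push_cast; ring
      rw [hcast]
      by_cases hb : θ < C1 * bandE v 0 R (k0 + j)
      · have hcard : (bad (j + 1)).card = (bad j).card + 1 := by
          simp only [hbad, Finset.range_add_one, Finset.filter_insert, if_pos hb]
          rw [Finset.card_insert_of_notMem]
          simp
        rw [hcard, pow_succ, pow_succ]
        calc lev v 0 R (k0 + j + 1) * (θ ^ (bad j).card * θ)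
            ≤ lev v 0 R (k0 + j) * (θ ^ (bad j).card * θ) :=
              mul_le_mul_of_nonneg_right hanti (by positivity)
          _ = (lev v 0 R (k0 + j) * θ ^ (bad j).card) * θ := by ring
          _ ≤ (θ ^ j * (Real.pi * R ^ 2)) * θ := mul_le_mul_of_nonneg_right ih hθ0.le
          _ = _ := by ring
      · have hcard : bad (j + 1) = bad j := by
          simp only [hbad, Finset.range_add_one, Finset.filter_insert, if_neg hb]
        rw [hcard, pow_succ]
        push Not at hb
        have h8 : lev v 0 R (k0 + j + 1) ≤ θ * lev v 0 R (k0 + j) := by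
          refine hs.trans ?_
          calc C1 * bandE v 0 R (k0 + j) * (lev v 0 R (k0 + j) - lev v 0 R (k0 + j + 1))
              ≤ θ * (lev v 0 R (k0 + j) - lev v 0 R (k0 + j + 1)) :=
                mul_le_mul_of_nonneg_right hb (by linarith)
            _ ≤ θ * lev v 0 R (k0 + j) := by
                apply mul_le_mul_of_nonneg_left _ hθ0.le
                linarith
        calc lev v 0 R (k0 + j + 1) * θ ^ (bad j).card
            ≤ (θ * lev v 0 R (k0 + j)) * θ ^ (bad j).card :=
              mul_le_mul_of_nonneg_right h8 (by positivity)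
          _ = (lev v 0 R (k0 + j) * θ ^ (bad j).card) * θ := by ring
          _ ≤ (θ ^ j * (Real.pi * R ^ 2)) * θ := mul_le_mul_of_nonneg_right ih hθ0.le
          _ = _ := by ring
  have hbound : ∀ j : ℕ, (bad j).card ≤ m0 := by
    intro j
    have h9 : ((bad j).card : ℝ) * θ ≤ C1 * E := by
      calc ((bad j).card : ℝ) * θ = ∑ i ∈ bad j, θ := by rw [Finset.sum_const, nsmul_eq_mul]
        _ ≤ ∑ i ∈ bad j, C1 * bandE v 0 R (k0 + i) := by
            apply Finset.sum_le_sum
            intro i hi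
            exact (Finset.mem_filter.mp hi).2.le
        _ ≤ ∑ i ∈ Finset.range j, C1 * bandE v 0 R (k0 + i) := by
            apply Finset.sum_le_sum_of_subset_of_nonneg (Finset.filter_subset _ _)
            intro i _ _
            apply mul_nonneg hC1.le
            unfold bandE
            positivity
        _ = C1 * ∑ i ∈ Finset.range j, bandE v 0 R (k0 + i) := by rw [Finset.mul_sum]
        _ ≤ C1 * E := by
            apply mul_le_mul_of_nonneg_left _ hC1.le
            exact (sum_bandE_le hv 0 R k0 j).trans h3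
    rw [hm0]
    have h10 : ((bad j).card : ℝ) ≤ C1 * E / θ := by
      rw [le_div_iff₀ hθ0]
      exact h9
    exact_mod_cast h10.trans (Nat.le_ceil _)
  by_cases hθ1 : θ ≤ 1
  · have h11 := hind (m0 + j)
    have hcast : k0 + ((m0 + j : ℕ) : ℝ) = k0 + m0 + j := by push_cast; ring
    rw [hcast] at h11
    have h12 : lev v 0 R (k0 + m0 + j) * θ ^ m0 ≤ θ ^ (m0 + j) * (Real.pi * R ^ 2) := by
      refine le_trans ?_ h11
      apply mul_le_mul_of_nonneg_left _ (lev_nonneg _ _ _ _)
      exact pow_le_pow_of_le_one hθ0.le hθ1 (hbound _)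
    rw [pow_add] at h12
    have h13 : 0 < θ ^ m0 := by positivity
    have h14 : θ ^ m0 * lev v 0 R (k0 + m0 + j) ≤ θ ^ m0 * (θ ^ j * (Real.pi * R ^ 2)) := by
      linarith
    exact le_of_mul_le_mul_left h14 h13
  · push Not at hθ1
    refine (lev_le v 0 hR _).trans ?_
    have : 1 ≤ θ ^ j := one_le_pow₀ hθ1.le
    have h15 : 0 ≤ Real.pi * R ^ 2 := by positivity
    nlinarith

lemma flat_exp_one (p E R : ℝ) (hp : 0 ≤ p) (hE : 0 ≤ E) (hR : 0 < R) :
    ∃ C : ℝ, 0 < C ∧ ∀ v : E2 → ℝ, ContDiff ℝ 1 v → ∫ x in ball (0 : E2) R, v x ^ 2 ≤ E →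
      ∫ x in ball (0 : E2) R, ‖fderiv ℝ v x‖ ^ 2 ≤ E →
      ∫ x in ball (0 : E2) R, Real.exp (p * v x) ≤ C := by
  have hpi := Real.pi_pos
  obtain ⟨k, hk⟩ := exists_lev_decay (Real.exp (-(p + 1))) E R (Real.exp_pos _) hE hR
  have h1 : Real.exp (-(p + 1)) * Real.exp p < 1 := by
    rw [← Real.exp_add, Real.exp_lt_one_iff]
    linarith
  refine ⟨Real.exp (p * k) * (1 + Real.exp p / (1 - Real.exp (-(p + 1)) * Real.exp p))
    * (Real.pi * R ^ 2), ?_, fun v hv h2 h3 => ?_⟩
  · have : 0 < 1 - Real.exp (-(p + 1)) * Real.exp p := by linarith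
    positivity
  · exact exp_int_le hv.continuous 0 hR hp (Real.exp_pos _).le h1 (hk v hv h2 h3)

theorem flat_exp (p E R : ℝ) (hR : 0 < R) :
    ∃ C : ℝ, 0 < C ∧ ∀ v : E2 → ℝ, ContDiff ℝ 1 v → ∫ x in ball (0 : E2) R, v x ^ 2 ≤ E →
      ∫ x in ball (0 : E2) R, ‖fderiv ℝ v x‖ ^ 2 ≤ E →
      ∫ x in ball (0 : E2) R, Real.exp (p * |v x|) ≤ C := by
  obtain ⟨C, hC, h⟩ := flat_exp_one |p| (max E 0) R (abs_nonneg p) (le_max_right _ _) hR
  refine ⟨2 * C, by positivity, fun v hv h2 h3 => ?_⟩
  have hvc := hv.continuous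
  have h4 := h v hv (h2.trans (le_max_left _ _)) (h3.trans (le_max_left _ _))
  have h5 := h (fun x => -v x) hv.neg (by simpa using h2.trans (le_max_left _ _)) (by
    have : ∀ x, ‖fderiv ℝ (fun x => -v x) x‖ = ‖fderiv ℝ v x‖ := by
      intro x
      rw [show (fun x => -v x) = -v from rfl, fderiv_neg, norm_neg]
    simp_rw [this]
    exact h3.trans (le_max_left _ _))
  have i1 : IntegrableOn (fun x => Real.exp (|p| * v x)) (ball (0 : E2) R) :=
    intOn_ball (by fun_prop) _ _
  have i2 : IntegrableOn (fun x => Real.exp (|p| * -v x)) (ball (0 : E2) R) :=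
    intOn_ball (by fun_prop) _ _
  calc ∫ x in ball (0 : E2) R, Real.exp (p * |v x|)
      ≤ ∫ x in ball (0 : E2) R, (Real.exp (|p| * v x) + Real.exp (|p| * -v x)) := by
        apply setIntegral_mono_on
        · exact intOn_ball (by fun_prop) _ _
        · exact i1.add i2
        · exact measurableSet_ball
        · intro x _
          have e1 : Real.exp (p * |v x|) ≤ Real.exp (|p| * |v x|) :=
            Real.exp_le_exp.mpr (mul_le_mul_of_nonneg_right (le_abs_self p) (abs_nonneg _))
          have e2 : Real.exp (|p| * |v x|) ≤ Real.exp (|p| * v x) + Real.exp (|p| * -v x) := by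
            have p1 := Real.exp_pos (|p| * v x)
            have p2 := Real.exp_pos (|p| * -v x)
            rcases abs_cases (v x) with ⟨h6, _⟩ | ⟨h6, _⟩
            · rw [h6]; linarith
            · rw [h6]; linarith
          exact e1.trans e2
    _ = (∫ x in ball (0 : E2) R, Real.exp (|p| * v x))
        + ∫ x in ball (0 : E2) R, Real.exp (|p| * -v x) := integral_add i1 i2
    _ ≤ C + C := add_le_add h4 h5
    _ = 2 * C := by ring

end Pool.Agent.Helper33.PS
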