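import Pool.Agent.Helper41.PS.Levels

/-!
# Approximation in L1 of functions on a disc by finitely many averages
-/

open MeasureTheory Set Filter Topology Metric
open scoped ContDiff ENNReal NNReal

namespace Pool.Agent.Helper33.PS
open Pool.Agent.Helper41.PS

/-- The points of the grid of mesh `s`. -/
noncomputable def gridPt (s : ℝ) (z : Fin 2 → ℤ) : E2 := WithLp.toLp 2 (fun i => s * (z i : ℝ))

lemma gridPt_apply (s : ℝ) (z : Fin 2 → ℤ) (i : Fin 2) : gridPt s z i = s * z i := rfl

lemma abs_coord_le (x : E2) (i : Fin 2) : |x i| ≤ ‖x‖ := by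
  have := EuclideanSpace.norm_eq x
  rw [this]
  apply Real.le_sqrt_of_sq_le
  rw [sq_abs]
  have h1 : ‖x i‖ ^ 2 ≤ ∑ i, ‖x i‖ ^ 2 :=
    Finset.single_le_sum (f := fun i => ‖x i‖ ^ 2) (fun j _ => by positivity) (Finset.mem_univ i)
  simpa using h1

lemma exists_grid {s : ℝ} (hs : 0 < s) (x : E2) :
    x ∈ ball (gridPt s (fun i => round (x i / s))) s := by
  rw [mem_ball, dist_eq_norm, EuclideanSpace.norm_eq]
  have h1 : ∀ i : Fin 2, ‖(x - gridPt s (fun i => round (x i / s))) i‖ ^ 2 ≤ s ^ 2 / 4 := by
    intro i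
    have h2 := abs_sub_round (x i / s)
    have h3 : (x - gridPt s (fun i => round (x i / s))) i = s * (x i / s - round (x i / s)) := by
      rw [PiLp.sub_apply, gridPt_apply]
      field_simp
    rw [h3, Real.norm_eq_abs, abs_mul, abs_of_pos hs, mul_pow]
    have h4 : |x i / s - round (x i / s)| ^ 2 ≤ (1 / 2) ^ 2 :=
      pow_le_pow_left₀ (abs_nonneg _) h2 2
    have h5 : 0 ≤ s ^ 2 := by positivity
    nlinarith
  rw [Real.sqrt_lt' hs, Fin.sum_univ_two]
  have h6 := h1 0
  have h7 := h1 1
  have h5 : 0 < s ^ 2 := by positivity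
  linarith

lemma grid_count {s : ℝ} (hs : 0 < s) (G : Finset (Fin 2 → ℤ)) (x : E2) [DecidablePred fun z => x ∈ ball (gridPt s z) s] :
    (G.filter (fun z => x ∈ ball (gridPt s z) s)).card ≤ 4 := by
  classical
  have hsub : G.filter (fun z => x ∈ ball (gridPt s z) s)
      ⊆ Fintype.piFinset (fun i : Fin 2 => ({⌊x i / s⌋, ⌊x i / s⌋ + 1} : Finset ℤ)) := by
    intro z hz
    rw [Finset.mem_filter] at hz
    rw [Fintype.mem_piFinset]
    intro i
    have h1 := hz.2
    rw [mem_ball, dist_eq_norm] at h1
    have h2 := (abs_coord_le (x - gridPt s z) i).trans_lt h1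
    rw [PiLp.sub_apply, gridPt_apply, abs_lt] at h2
    have h3 : x i / s - 1 < z i := by
      rw [sub_lt_iff_lt_add, div_lt_iff₀ hs]
      linarith
    have h4 : (z i : ℝ) < x i / s + 1 := by
      rw [← sub_lt_iff_lt_add, lt_div_iff₀ hs]
      linarith
    have h5 : (⌊x i / s⌋ : ℝ) ≤ x i / s := Int.floor_le _
    have h6 : x i / s < ⌊x i / s⌋ + 1 := Int.lt_floor_add_one _
    have h7 : ⌊x i / s⌋ - 1 < z i := by
      have : ((⌊x i / s⌋ - 1 : ℤ) : ℝ) < z i := by push_cast; linarith
      exact_mod_cast this
    have h8 : z i < ⌊x i / s⌋ + 2 := by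
      have : (z i : ℝ) < ((⌊x i / s⌋ + 2 : ℤ) : ℝ) := by push_cast; linarith
      exact_mod_cast this
    rw [Finset.mem_insert, Finset.mem_singleton]
    omega
  refine (Finset.card_le_card hsub).trans ?_
  rw [Fintype.card_piFinset, Fin.prod_univ_two]
  have h9 : ∀ i : Fin 2, ({⌊x i / s⌋, ⌊x i / s⌋ + 1} : Finset ℤ).card ≤ 2 := fun i =>
    Finset.card_le_two
  calc _ ≤ 2 * 2 := Nat.mul_le_mul (h9 0) (h9 1)
    _ = 4 := rfl

/-- On a smaller disc the `L¹` norm is controlled by finitely many averages, up to a small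
multiple of the `L¹` norm of the gradient on the larger disc. -/
theorem grid_l1 {r R ε : ℝ} (hrR : r < R) (hε : 0 < ε) :
    ∃ s : ℝ, 0 < s ∧ ∃ G : Finset (Fin 2 → ℤ), (∀ z ∈ G, ball (gridPt s z) s ⊆ ball 0 R) ∧
      ∀ f : E2 → ℝ, ContDiff ℝ 1 f → ∫ x in ball (0 : E2) r, |f x|
        ≤ ε * (∫ x in ball (0 : E2) R, ‖fderiv ℝ f x‖)
          + Real.pi * s ^ 2 * ∑ z ∈ G, |avg f (gridPt s z) s| := by
  classical
  have hpi := Real.pi_pos
  set s : ℝ := min (ε / 24) ((R - r) / 2) with hsdef
  have hs : 0 < s := lt_min (by positivity) (by linarith)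
  have hs1 : 24 * s ≤ ε := by
    have : s ≤ ε / 24 := min_le_left _ _
    linarith
  have hs2 : 2 * s ≤ R - r := by
    have : s ≤ (R - r) / 2 := min_le_right _ _
    linarith
  set K : ℤ := ⌈R / s⌉ + 1 with hK
  set G : Finset (Fin 2 → ℤ) := (Fintype.piFinset (fun _ : Fin 2 => Finset.Icc (-K) K)).filter
    (fun z => ball (gridPt s z) s ⊆ ball 0 R) with hG
  refine ⟨s, hs, G, fun z hz => (Finset.mem_filter.mp hz).2, fun f hf => ?_⟩
  have hfc := hf.continuous
  have hdc : Continuous (fun z => fderiv ℝ f z) := hf.continuous_fderiv (by simp)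
  have hcov : ∀ x ∈ ball (0 : E2) r, ∃ z ∈ G, x ∈ ball (gridPt s z) s := by
    intro x hx
    rw [mem_ball, dist_zero_right] at hx
    refine ⟨fun i => round (x i / s), ?_, exists_grid hs x⟩
    have h0 := exists_grid hs x
    rw [hG, Finset.mem_filter, Fintype.mem_piFinset]
    constructor
    · intro i
      have h1 := abs_sub_round (x i / s)
      have h2 := abs_coord_le x i
      have h3 : |x i / s| ≤ R / s := by
        rw [abs_div, abs_of_pos hs]
        apply div_le_div_of_nonneg_right _ hs.le
        linarith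
      have h4 : R / s ≤ ⌈R / s⌉ := Int.le_ceil _
      have h5 : |(round (x i / s) : ℝ)| ≤ K := by
        rw [hK]
        push_cast
        have h6 : |(round (x i / s) : ℝ)| ≤ |x i / s| + |x i / s - round (x i / s)| := by
          have := abs_sub_abs_le_abs_sub (round (x i / s) : ℝ) (x i / s)
          rw [abs_sub_comm] at this
          linarith
        linarith
      rw [Finset.mem_Icc]
      rw [abs_le] at h5
      constructor
      · exact_mod_cast h5.1
      · exact_mod_cast h5.2
    · intro y hy
      rw [mem_ball] at hy h0 ⊢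
      have h7 : dist y 0 ≤ dist y (gridPt s (fun i => round (x i / s)))
          + dist (gridPt s (fun i => round (x i / s))) x + dist x 0 := dist_triangle4 _ _ _ _
      rw [dist_comm (gridPt s _) x, dist_zero_right x] at h7
      linarith
  -- covering
  have hint : ∀ z : Fin 2 → ℤ, ∀ g : E2 → ℝ, Continuous g →
      Integrable (indicator (ball (gridPt s z) s) g) := by
    intro z g hg
    rw [integrable_indicator_iff measurableSet_ball]
    exact intOn_ball hg _ _
  have step1 : ∫ x in ball (0 : E2) r, |f x| ≤ ∑ z ∈ G, ∫ x in ball (gridPt s z) s, |f x| := by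
    have e1 : ∑ z ∈ G, ∫ x in ball (gridPt s z) s, |f x|
        = ∫ x, ∑ z ∈ G, indicator (ball (gridPt s z) s) (fun x => |f x|) x := by
      rw [integral_finsetSum _ (fun z _ => hint z _ (by fun_prop))]
      refine Finset.sum_congr rfl (fun z _ => ?_)
      rw [integral_indicator measurableSet_ball]
    rw [e1, ← integral_indicator measurableSet_ball]
    apply integral_mono
    · rw [integrable_indicator_iff measurableSet_ball]
      exact intOn_ball (by fun_prop) _ _
    · exact integrable_finsetSum _ (fun z _ => hint z _ (by fun_prop))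
    · intro x
      by_cases hx : x ∈ ball (0 : E2) r
      · obtain ⟨z, hz, hxz⟩ := hcov x hx
        rw [indicator_of_mem hx]
        have h8 : indicator (ball (gridPt s z) s) (fun x => |f x|) x
            ≤ ∑ z ∈ G, indicator (ball (gridPt s z) s) (fun x => |f x|) x :=
          Finset.single_le_sum (f := fun z => indicator (ball (gridPt s z) s) (fun x => |f x|) x)
            (fun w _ => indicator_nonneg (fun y _ => abs_nonneg _) x) hz
        rw [indicator_of_mem hxz] at h8
        exact h8
      · rw [indicator_of_notMem hx]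
        exact Finset.sum_nonneg (fun w _ => indicator_nonneg (fun y _ => abs_nonneg _) x)
  have step2 : ∀ z : Fin 2 → ℤ, ∫ x in ball (gridPt s z) s, |f x|
      ≤ 6 * s * (∫ x in ball (gridPt s z) s, ‖fderiv ℝ f x‖)
        + Real.pi * s ^ 2 * |avg f (gridPt s z) s| := by
    intro z
    have h9 := poincare_ball f hf (gridPt s z) hs
    calc ∫ x in ball (gridPt s z) s, |f x|
        ≤ ∫ x in ball (gridPt s z) s, (|f x - avg f (gridPt s z) s| + |avg f (gridPt s z) s|) := by
          apply setIntegral_mono_on
          · exact intOn_ball (by fun_prop) _ _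
          · exact intOn_ball (by fun_prop) _ _
          · exact measurableSet_ball
          · intro x _
            have := abs_add_le (f x - avg f (gridPt s z) s) (avg f (gridPt s z) s)
            rw [sub_add_cancel] at this
            exact this
      _ = (∫ x in ball (gridPt s z) s, |f x - avg f (gridPt s z) s|)
          + ∫ x in ball (gridPt s z) s, |avg f (gridPt s z) s| := by
          apply integral_add
          · exact intOn_ball (by fun_prop) _ _
          · exact intOn_ball (by fun_prop) _ _
      _ = (∫ x in ball (gridPt s z) s, |f x - avg f (gridPt s z) s|)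
          + Real.pi * s ^ 2 * |avg f (gridPt s z) s| := by
          rw [setIntegral_const, smul_eq_mul, volume_ball_real _ hs.le]
      _ ≤ _ := by linarith
  have step3 : ∑ z ∈ G, ∫ x in ball (gridPt s z) s, ‖fderiv ℝ f x‖
      ≤ 4 * ∫ x in ball (0 : E2) R, ‖fderiv ℝ f x‖ := by
    have e1 : ∑ z ∈ G, ∫ x in ball (gridPt s z) s, ‖fderiv ℝ f x‖
        = ∫ x, ∑ z ∈ G, indicator (ball (gridPt s z) s) (fun x => ‖fderiv ℝ f x‖) x := by
      rw [integral_finsetSum _ (fun z _ => hint z _ (by fun_prop))]
      refine Finset.sum_congr rfl (fun z _ => ?_)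
      rw [integral_indicator measurableSet_ball]
    rw [e1, ← integral_indicator measurableSet_ball, ← integral_const_mul]
    apply integral_mono
    · exact integrable_finsetSum _ (fun z _ => hint z _ (by fun_prop))
    · apply Integrable.const_mul
      rw [integrable_indicator_iff measurableSet_ball]
      exact intOn_ball (by fun_prop) _ _
    · intro x
      by_cases hx : x ∈ ball (0 : E2) R
      · have h10 : ∑ z ∈ G, indicator (ball (gridPt s z) s) (fun x => ‖fderiv ℝ f x‖) x
            = ((G.filter (fun z => x ∈ ball (gridPt s z) s)).card : ℝ) * ‖fderiv ℝ f x‖ := by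
          rw [← nsmul_eq_mul, ← Finset.sum_const]
          have h12 : ∑ z ∈ G.filter (fun z => x ∈ ball (gridPt s z) s), ‖fderiv ℝ f x‖
              = ∑ z ∈ G, if x ∈ ball (gridPt s z) s then ‖fderiv ℝ f x‖ else 0 :=
            Finset.sum_filter _ _
          rw [h12]
          refine Finset.sum_congr rfl (fun z _ => ?_)
          rw [indicator_apply]
        have h11 : ((G.filter (fun z => x ∈ ball (gridPt s z) s)).card : ℝ) ≤ 4 := by
          exact_mod_cast grid_count hs G x
        simp only []
        rw [h10, indicator_of_mem hx]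
        exact mul_le_mul_of_nonneg_right h11 (norm_nonneg _)
      · simp only []
        rw [indicator_of_notMem hx, mul_zero]
        apply le_of_eq
        apply Finset.sum_eq_zero
        intro z hz
        apply indicator_of_notMem
        intro hxz
        exact hx ((Finset.mem_filter.mp hz).2 hxz)
  have hI : 0 ≤ ∫ x in ball (0 : E2) R, ‖fderiv ℝ f x‖ := by positivity
  calc ∫ x in ball (0 : E2) r, |f x| ≤ ∑ z ∈ G, ∫ x in ball (gridPt s z) s, |f x| := step1
    _ ≤ ∑ z ∈ G, (6 * s * (∫ x in ball (gridPt s z) s, ‖fderiv ℝ f x‖)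
        + Real.pi * s ^ 2 * |avg f (gridPt s z) s|) := Finset.sum_le_sum (fun z _ => step2 z)
    _ = 6 * s * (∑ z ∈ G, ∫ x in ball (gridPt s z) s, ‖fderiv ℝ f x‖)
        + Real.pi * s ^ 2 * ∑ z ∈ G, |avg f (gridPt s z) s| := by
        rw [Finset.sum_add_distrib, Finset.mul_sum, Finset.mul_sum]
    _ ≤ 6 * s * (4 * ∫ x in ball (0 : E2) R, ‖fderiv ℝ f x‖)
        + Real.pi * s ^ 2 * ∑ z ∈ G, |avg f (gridPt s z) s| := by
        have := mul_le_mul_of_nonneg_left step3 (show 0 ≤ 6 * s by positivity)
        linarith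
    _ ≤ _ := by
        have : 6 * s * (4 * ∫ x in ball (0 : E2) R, ‖fderiv ℝ f x‖)
            = (24 * s) * ∫ x in ball (0 : E2) R, ‖fderiv ℝ f x‖ := by ring
        rw [this]
        have := mul_le_mul_of_nonneg_right hs1 hI
        linarith

end Pool.Agent.Helper33.PS
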