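import Pool.Agent.Helper33.PS.FlatExp
import Pool.Agent.Helper33.PS.FlatGrid
import Pool.Agent.Helper93.PS.R0
import Pool.Agent.Helper41.PS.Cutoff
import Pool.Agent.Helper75.PS.Main

/-!
# Localisation of smooth functions on a closed surface to discs
-/

open MeasureTheory Set Manifold Bundle Filter Topology
open scoped ContDiff ENNReal

set_option linter.unusedSectionVars false

namespace Pool.Agent.Helper33.PS
open Pool.Agent.Helper41.PS

variable {M : Type*} [TopologicalSpace M] [ChartedSpace E2 M]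
  [IsManifold (𝓡 2) ∞ M] [RiemannianBundle (fun x : M => TangentSpace (𝓡 2) x)]
  [MeasurableSpace M]

/-- The local representative of a function in the parametrisation `p`, cut off outside the disc
of radius `δ / 2`. -/
noncomputable def loc {vol : Measure M} {x0 : M} (p : Param vol x0) (u : M → ℝ) (y : E2) : ℝ :=
  chi (p.δ / 2) y * u (p.P y)

lemma loc_eq {vol : Measure M} {x0 : M} (p : Param vol x0) (u : M → ℝ) {y : E2}
    (hy : y ∈ Metric.ball (0 : E2) (p.δ / 2)) : loc p u y = u (p.P y) := by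
  unfold loc
  rw [mem_ball_zero_iff] at hy
  rw [chi_one _ (by have := p.δ_pos; linarith) hy.le, one_mul]

lemma loc_contDiff {vol : Measure M} {x0 : M} (p : Param vol x0) {u : M → ℝ}
    (hu : ContMDiff (𝓡 2) 𝓘(ℝ, ℝ) ∞ u) : ContDiff ℝ 1 (loc p u) := by
  have hδ := p.δ_pos
  rw [contDiff_iff_contDiffAt]
  intro y
  by_cases hy : y ∈ Metric.ball (0 : E2) p.δ
  · have h1 : ContDiffAt ℝ ∞ (u ∘ p.P) y :=
      (p.smooth_comp u hu).contDiffAt (Metric.isOpen_ball.mem_nhds hy)
    have h2 : ContDiffAt ℝ ∞ (chi (p.δ / 2)) y := (chi_contDiff _).contDiffAt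
    exact (h2.mul h1).of_le (by simp)
  · have h3 : y ∉ tsupport (chi (p.δ / 2)) := by
      intro h4
      have h5 := chi_tsupport (M := p.δ / 2) (by linarith) h4
      apply hy
      rw [mem_closedBall_zero_iff] at h5
      rw [mem_ball_zero_iff]
      linarith
    have h6 : loc p u =ᶠ[𝓝 y] fun _ => (0 : ℝ) := by
      have h7 : chi (p.δ / 2) =ᶠ[𝓝 y] 0 := notMem_tsupport_iff_eventuallyEq.mp h3
      filter_upwards [h7] with z hz
      unfold loc
      rw [hz, Pi.zero_apply, zero_mul]
    exact contDiffAt_const.congr_of_eventuallyEq h6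

lemma fderiv_loc {vol : Measure M} {x0 : M} (p : Param vol x0) (u : M → ℝ) {y : E2}
    (hy : y ∈ Metric.ball (0 : E2) (p.δ / 2)) : ‖fderiv ℝ (loc p u) y‖ = ‖gradient (u ∘ p.P) y‖ := by
  rw [norm_grad]
  congr 1
  apply Filter.EventuallyEq.fderiv_eq
  filter_upwards [Metric.isOpen_ball.mem_nhds hy] with z hz
  exact loc_eq p u hz

variable [BorelSpace M] [T2Space M] [CompactSpace M]
  [IsContMDiffRiemannianBundle (𝓡 2) ∞ E2 (fun x : M => TangentSpace (𝓡 2) x)]

lemma intM {vol : Measure M} [IsFiniteMeasure vol] {f : M → ℝ} (hf : Continuous f) :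
    Integrable f vol := by
  obtain ⟨C, hC⟩ := isCompact_univ.exists_bound_of_continuousOn (f := f) hf.continuousOn
  exact Integrable.of_bound hf.measurable.aestronglyMeasurable C
    (Eventually.of_forall (fun x => hC x (mem_univ x)))

/-- Comparison of integrals and norms in a parametrisation. -/
lemma exists_local_bounds {vol : Measure M} [IsFiniteMeasure vol] {x0 : M} (p : Param vol x0) :
    ∃ K : ℝ, 0 < K ∧
      (∀ u : M → ℝ, ContMDiff (𝓡 2) 𝓘(ℝ, ℝ) ∞ u →
        (∫ y in Metric.ball (0 : E2) (p.δ / 2), loc p u y ^ 2 ≤ K * ∫ x, u x ^ 2 ∂vol) ∧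
        (∫ y in Metric.ball (0 : E2) (p.δ / 2), ‖fderiv ℝ (loc p u) y‖ ^ 2
          ≤ K * ∫ x, ‖Helper41.PS.grad u x‖ ^ 2 ∂vol)) ∧
      (∀ F : M → ℝ, Continuous F → (∀ x, 0 ≤ F x) →
        ∫ x in p.P '' (Metric.ball 0 (p.δ / 4)), F x ∂vol
          ≤ K * ∫ y in Metric.ball (0 : E2) (p.δ / 4), F (p.P y)) := by
  have hδ := p.δ_pos
  have hsub : Metric.ball (0 : E2) (p.δ / 2) ⊆ Metric.ball 0 p.δ :=
    Metric.ball_subset_ball (by linarith)
  have hsub' : Metric.ball (0 : E2) (p.δ / 4) ⊆ Metric.ball 0 p.δ :=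
    Metric.ball_subset_ball (by linarith)
  have hsub2 : Metric.closedBall (0 : E2) (p.δ / 2) ⊆ Metric.ball 0 p.δ :=
    Metric.closedBall_subset_ball (by linarith)
  obtain ⟨c, C, hc, hC, hσ, hg⟩ := Helper93.PS.exists_grad_comparison p
    (show p.δ / 2 < p.δ by linarith)
  have key : ∀ F : M → ℝ, Continuous F → (∀ x, 0 ≤ F x) → ∀ G : E2 → ℝ, Continuous G →
      ∀ a : ℝ, 0 < a →
      (∀ y ∈ Metric.ball (0 : E2) (p.δ / 2), a * G y ≤ F (p.P y) * p.σ y) →
      ∫ y in Metric.ball (0 : E2) (p.δ / 2), G y ≤ a⁻¹ * ∫ x, F x ∂vol := by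
    intro F hF hF0 G hG a ha hFG
    have h1 := Helper93.PS.integral_param p hF (U := Metric.ball 0 (p.δ / 2)) Metric.isOpen_ball hsub
    have h2 : ∫ x in p.P '' (Metric.ball 0 (p.δ / 2)), F x ∂vol ≤ ∫ x, F x ∂vol :=
      setIntegral_le_integral (intM hF) (Eventually.of_forall hF0)
    have h3 : a * ∫ y in Metric.ball (0 : E2) (p.δ / 2), G y
        ≤ ∫ y in Metric.ball (0 : E2) (p.δ / 2), F (p.P y) * p.σ y := by
      rw [← integral_const_mul]
      apply setIntegral_mono_on
      · exact (intOn_ball hG _ _).const_mul a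
      · have h4 : ContinuousOn (fun y => F (p.P y) * p.σ y) (Metric.closedBall 0 (p.δ / 2)) :=
          (hF.comp_continuousOn (p.cont_P.mono hsub2)).mul (p.σ_smooth.continuousOn.mono hsub2)
        exact (h4.integrableOn_compact (isCompact_closedBall _ _)).mono_set
          Metric.ball_subset_closedBall
      · exact measurableSet_ball
      · exact hFG
    rw [le_inv_mul_iff₀ ha]
    linarith
  refine ⟨max (max c⁻¹ (c * c)⁻¹) C, by positivity, fun u hu => ⟨?_, ?_⟩, fun F hF hF0 => ?_⟩
  · have hn : 0 ≤ ∫ x, u x ^ 2 ∂vol := by positivity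
    have huc : Continuous u := hu.continuous
    refine (key (fun x => u x ^ 2) (by fun_prop) (fun x => by positivity)
      (fun y => loc p u y ^ 2) (by have := (loc_contDiff p hu).continuous; fun_prop) c hc ?_).trans ?_
    · intro y hy
      rw [loc_eq p u hy, mul_comm]
      exact mul_le_mul_of_nonneg_left (hσ y (Metric.ball_subset_closedBall hy)).1 (by positivity)
    · exact mul_le_mul_of_nonneg_right ((le_max_left _ _).trans (le_max_left _ _)) hn
  · have hn : 0 ≤ ∫ x, ‖Helper41.PS.grad u x‖ ^ 2 ∂vol := by positivity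
    have hgc : Continuous (fun x => ‖Helper41.PS.grad u x‖) := Helper93.PS.continuous_norm_grad hu
    have hlc : Continuous (fun z => fderiv ℝ (loc p u) z) :=
      (loc_contDiff p hu).continuous_fderiv (by simp)
    refine (key (fun x => ‖Helper41.PS.grad u x‖ ^ 2) (by fun_prop) (fun x => by positivity)
      (fun y => ‖fderiv ℝ (loc p u) y‖ ^ 2) (by fun_prop) (c * c) (by positivity) ?_).trans ?_
    · intro y hy
      rw [fderiv_loc p u hy]
      have h5 := (hg u hu y (Metric.ball_subset_closedBall hy)).1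
      have h6 := (hσ y (Metric.ball_subset_closedBall hy)).1
      calc c * c * ‖gradient (u ∘ p.P) y‖ ^ 2 = (c * ‖gradient (u ∘ p.P) y‖ ^ 2) * c := by ring
        _ ≤ ‖Helper41.PS.grad u (p.P y)‖ ^ 2 * p.σ y := by
            apply mul_le_mul h5 h6 hc.le (by positivity)
    · exact mul_le_mul_of_nonneg_right ((le_max_right _ _).trans (le_max_left _ _)) hn
  · have h1 := Helper93.PS.integral_param p hF (U := Metric.ball 0 (p.δ / 4)) Metric.isOpen_ball hsub'
    have hcl : Metric.closedBall (0 : E2) (p.δ / 4) ⊆ Metric.ball 0 p.δ :=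
      Metric.closedBall_subset_ball (by linarith)
    have h7 : ContinuousOn (fun y => F (p.P y)) (Metric.closedBall 0 (p.δ / 4)) :=
      hF.comp_continuousOn (p.cont_P.mono hcl)
    rw [h1, ← integral_const_mul]
    apply setIntegral_mono_on
    · have h4 : ContinuousOn (fun y => F (p.P y) * p.σ y) (Metric.closedBall 0 (p.δ / 4)) :=
        h7.mul (p.σ_smooth.continuousOn.mono hcl)
      exact (h4.integrableOn_compact (isCompact_closedBall _ _)).mono_set
        Metric.ball_subset_closedBall
    · exact ((h7.integrableOn_compact (isCompact_closedBall _ _)).mono_set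
        Metric.ball_subset_closedBall).const_mul _
    · exact measurableSet_ball
    · intro y hy
      rw [mul_comm]
      apply mul_le_mul_of_nonneg_right _ (hF0 _)
      have hy2 : y ∈ Metric.closedBall (0 : E2) (p.δ / 2) :=
        Metric.closedBall_subset_closedBall (by linarith) (Metric.ball_subset_closedBall hy)
      exact (hσ y hy2).2.trans (le_max_right _ _)

/-- A finite cover of the surface by small parametrised discs. -/
lemma exists_finite_cover {vol : Measure M} (hvol : IsRiemannianVolume vol) :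
    ∃ (p : ∀ x : M, Param vol x) (t : Finset M),
      (univ : Set M) ⊆ ⋃ x ∈ t, (p x).P '' (Metric.ball 0 ((p x).δ / 4)) := by
  have h0 : ∀ x : M, Nonempty (Param vol x) := fun x => Helper75.PS.exists_param vol hvol x
  let p : ∀ x : M, Param vol x := fun x => (h0 x).some
  obtain ⟨t, -, ht⟩ := isCompact_univ.elim_nhds_subcover
    (fun x : M => (p x).P '' (Metric.ball 0 ((p x).δ / 4))) (fun x _ => by
      have hδ := (p x).δ_pos
      apply ((p x).open_P _ (Metric.ball_subset_ball (by linarith)) Metric.isOpen_ball).mem_nhds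
      exact ⟨0, Metric.mem_ball_self (by linarith), (p x).P_zero⟩)
  exact ⟨p, t, ht⟩

lemma integral_le_sum_cover {ι : Type*} {vol : Measure M} [IsFiniteMeasure vol] (t : Finset ι) (S : ι → Set M)
    (hS : ∀ i ∈ t, MeasurableSet (S i)) (hcov : (univ : Set M) ⊆ ⋃ i ∈ t, S i) {F : M → ℝ}
    (hF : Continuous F) (hF0 : ∀ x, 0 ≤ F x) :
    ∫ x, F x ∂vol ≤ ∑ i ∈ t, ∫ x in S i, F x ∂vol := by
  have hint : ∀ i ∈ t, Integrable (indicator (S i) F) vol := fun i hi =>
    (intM hF).indicator (hS i hi)
  have e1 : ∑ i ∈ t, ∫ x in S i, F x ∂vol = ∫ x, ∑ i ∈ t, indicator (S i) F x ∂vol := by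
    rw [integral_finsetSum _ hint]
    refine Finset.sum_congr rfl (fun i hi => ?_)
    rw [integral_indicator (hS i hi)]
  rw [e1]
  apply integral_mono (intM hF) (integrable_finsetSum _ hint)
  intro x
  obtain ⟨i, hi, hxi⟩ := mem_iUnion₂.mp (hcov (mem_univ x))
  have h1 : indicator (S i) F x ≤ ∑ i ∈ t, indicator (S i) F x :=
    Finset.single_le_sum (f := fun i => indicator (S i) F x)
      (fun j _ => indicator_nonneg (fun y _ => hF0 y) x) hi
  rw [indicator_of_mem hxi] at h1
  exact h1

end Pool.Agent.Helper33.PS
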